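import Pool.Agent.KDS.StmtsB

/-!
# KDS, row GLN: the determinant at the node places
-/

set_option autoImplicit false

namespace Pool.Agent.KDS.H26

open Polynomial NumberField H58Q Pool.Agent.SZT Pool.Agent.KDT

section cl

variable {R : Type} [CommRing R]

theorem gl_symm {I J : Ideal R} (h : SameCl I J) : SameCl J I := by
  obtain ⟨a, b, ha, hb, h⟩ := h
  exact ⟨b, a, hb, ha, h.symm⟩

theorem gl_trans [IsDomain R] {I J L : Ideal R} (h1 : SameCl I J) (h2 : SameCl J L) : SameCl I L := by
  obtain ⟨a, b, ha, hb, h⟩ := h1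
  obtain ⟨c, d, hc, hd, h'⟩ := h2
  refine ⟨c * a, b * d, mul_ne_zero hc ha, mul_ne_zero hb hd, ?_⟩
  rw [← Ideal.span_singleton_mul_span_singleton, ← Ideal.span_singleton_mul_span_singleton,
    mul_assoc, h, mul_left_comm, h', mul_assoc]

theorem gl_mul [IsDomain R] {I J I' J' : Ideal R} (h1 : SameCl I J) (h2 : SameCl I' J') :
    SameCl (I * I') (J * J') := by
  obtain ⟨a, b, ha, hb, h⟩ := h1
  obtain ⟨c, d, hc, hd, h'⟩ := h2
  refine ⟨a * c, b * d, mul_ne_zero ha hc, mul_ne_zero hb hd, ?_⟩
  rw [← Ideal.span_singleton_mul_span_singleton, ← Ideal.span_singleton_mul_span_singleton,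
    mul_mul_mul_comm, h, h', mul_mul_mul_comm]

end cl

theorem dup_map {K E : Type} [Field K] [Field E] (φ : K →+* E) (f : K[X]) (u : Fin 4 → K)
    (l : Fin 4) : dup (f.map φ) (fun l => φ (u l)) l = φ (dup f u l) := by
  fin_cases l
  · change dup0 (f.map φ) (fun l => φ (u l)) = φ (dup0 f u)
    simp only [dup0, coeff_map, map_add, map_sub, map_mul, map_pow, map_ofNat]
  · change dup1 (f.map φ) (fun l => φ (u l)) = φ (dup1 f u)
    simp only [dup1, coeff_map, map_add, map_sub, map_mul, map_pow, map_ofNat]
  · change dup2 (f.map φ) (fun l => φ (u l)) = φ (dup2 f u)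
    simp only [dup2, coeff_map, map_add, map_sub, map_mul, map_pow, map_ofNat]
  · change dup3 (f.map φ) (fun l => φ (u l)) = φ (dup3 f u)
    simp only [dup3, coeff_map, map_add, map_sub, map_mul, map_pow, map_ofNat]

theorem uni_smul {K : Type} [Field K] (c : Fin 6 → K) (d : K) (u : Fin 4 → K) :
    uni c (d • u) = d • uni c u := by
  funext l
  fin_cases l <;> simp [uni] <;> ring

theorem card_Ex2 : (Ex 2).card = 10 := by decide

theorem card_QI (i : ℕ) : Fintype.card (QI i) = 10 ^ i := by
  rw [Fintype.card_fun, Fintype.card_coe, card_Ex2, Fintype.card_fin]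

/-- the determinant after an embedding -/
theorem det_emb {K E : Type} [Field K] [Field E] (φ : K →+* E) (i : ℕ)
    (p : QI i → ℕ → Fin 4 → K) :
    (Matrix.of fun (j q : QI i) => ∏ a : Fin i, mon (q a).1 (fun l => φ (p j a l))).det =
      φ (Matrix.of fun (j q : QI i) => ∏ a : Fin i, mon (q a).1 (p j a)).det := by
  rw [RingHom.map_det]
  congr 1
  ext j e
  simp only [Matrix.of_apply, RingHom.mapMatrix_apply, Matrix.map_apply, mon, map_prod, map_pow]

theorem jj_le {e : Fin 4 → ℕ} (he : e ∈ Ex 2) : jj e ≤ 2 := by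
  have h := (Finset.mem_filter.mp he).2.1
  unfold jj
  omega

/-- **Row GLN.** -/
theorem gln (hPnb : PnbStatement) (hNdt : NdtStatement) (hUnt : UntStatement)
    (hShe : SheStatement) (hDpb : DpbStatement) (hDvb : DvbStatement) (hKqu : KquStatement)
    (hPln : PlnStatement) (hDtb : DtbStatement) : GlnStatement := by
  intro K _ _ v f n m₀ n₀ i M I A B U W k Γ hf h5 hsq hnode hn hval hI hm₀ hG hH h0
  have hdom : IsDomain (Q K f) := isDomain (g := 2) (by rw [h5])
  have h2 : (2 : K) ≠ 0 := two_ne_zero
  have hvl : ∀ x : K, v x = v.val x := fun _ => rfl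
  split_ifs with hnn
  · obtain ⟨s₁, Ω, _, w, φ, θ, ⟨m, hm⟩, hw, hroot, hNd, hb⟩ :=
      hPnb K v f n hf h5 hsq hnode hn hval I hI
    have hFm : (f.map φ).Monic := hf.map φ
    have hF5 : (f.map φ).natDegree = 5 := by rw [natDegree_map]; exact h5
    obtain ⟨-, -, -, hq, hdup⟩ := hShe Ω (f.map φ) θ hFm hF5
    have hq0 : ∀ j, ∀ a ≤ i, quart (f.map φ) (fun l => φ (kum f (A j a) (B j a) l)) = 0 := by
      intro j a ha
      have hg := (hH j a ha).1.1
      rw [← (hKqu.2 K Ω φ f 0 0).2, hKqu.1 K f _ _ hf h5 hg.toMum hg.two, map_zero]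
    have hdet : (Matrix.of fun (j q : QI i) => ∏ a : Fin i, mon (q a).1
        (uni (shc (f.map φ) θ) (fun l => φ (kum f (A j a) (B j a) l)))).det =
        φ (Matrix.of fun (j q : QI i) => ∏ a : Fin i, mon (q a).1
          (kum f (A j a) (B j a))).det := by
      rw [hUnt Ω (shc (f.map φ) θ) i (fun j a l => φ (kum f (A j a) (B j a) l))]
      exact det_emb φ i (fun j a => kum f (A j a) (B j a))
    have key := hNdt Ω w ((f.map φ).comp (X + C θ)) (-Real.log (v (discr f))) hNd i Γ hG
      (fun j a => uni (shc (f.map φ) θ) (fun l => φ (kum f (A j a) (B j a) l)))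
      (fun j a => φ (dup f (kum f (A j a) (B j a)) 0)) (fun j a => Lv v f (A j a) (U j a) M)
      (fun j a ha => by rw [hq]; exact hq0 j a ha)
      (fun j a ha => by
        obtain ⟨hVG, hGen, hcl⟩ := hH j a ha.le
        obtain ⟨hVG', hGen', hcl'⟩ := hH j (a + 1) ha
        have hc2 : SameCl (MI f (A j (a + 1)) (B j (a + 1))) (MI f (A j a) (B j a) ^ 2) := by
          have h3 : SameCl (MI f (A j a) (B j a) ^ 2) (I ^ (m₀ * (2 ^ (a + 1) * k j))) := by
            have h4 := gl_mul hcl hcl
            rw [← pow_two, ← pow_add] at h4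
            have h5' : m₀ * (2 ^ a * k j) + m₀ * (2 ^ a * k j) = m₀ * (2 ^ (a + 1) * k j) := by
              ring
            rwa [h5'] at h4
          exact gl_trans hcl' (gl_symm h3)
        obtain ⟨mm, V, hDbl, hId, hd1, hd2, hd3⟩ := hDpb K f (A j a) (B j a) (A j (a + 1))
          (B j (a + 1)) h2 hf h5 hsq hVG.1 hVG'.1.toMum hVG'.1.two hc2
        refine ⟨?_, ?_, ?_⟩
        · rwa [Ne, map_eq_zero]
        · rw [hdup _ (hq0 j a ha.le), ← uni_smul]
          congr 1
          funext l
          rw [dup_map, hd3 l, map_mul]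
          rfl
        · have hL := hDvb K f (A j a) (B j a) (A j (a + 1)) (B j (a + 1)) V (U j a) (W j a)
            (U j (a + 1)) (W j (a + 1)) mm M h2 hf h5 hsq hVG.1 hVG'.1 hDbl hId hGen hGen' v.val
          have hne : mm * resultant (A j a) (2 * B j a) ≠ 0 := by
            intro h
            rw [h] at hd1
            exact hd2 (by rw [hd1]; ring)
          have hm0 : v.val mm ≠ 0 := by
            rw [Ne, AbsoluteValue.eq_zero]
            exact left_ne_zero_of_mul hne
          have hr0 : v.val (resultant (A j a) (2 * B j a)) ≠ 0 := by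
            rw [Ne, AbsoluteValue.eq_zero]
            exact right_ne_zero_of_mul hne
          have hlog : Real.log (w (φ (dup f (kum f (A j a) (B j a)) 0))) =
              2 * Real.log (v.val mm) + 2 * Real.log (v.val (resultant (A j a) (2 * B j a))) := by
            rw [hw, hvl, hd1, map_pow, map_mul, Real.log_pow, Real.log_mul hm0 hr0]
            push_cast
            ring
          rw [hlog]
          refine hL.trans ?_
          change 4 * Lv v f (A j a) (U j a) M - _ - _ = 4 * Lv v f (A j a) (U j a) M - _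
          ring)
      (fun j l => by
        obtain ⟨hVG, hGen, hcl⟩ := hH j 0 (Nat.zero_le _)
        refine hb (m₀ * (2 ^ 0 * k j)) (A j 0) (B j 0) (U j 0) (W j 0) M hVG hcl hGen ?_ l
        obtain ⟨d, hd⟩ := hm₀ n hn hnn
        refine ⟨d * k j * m, ?_⟩
        rw [hd]
        push_cast
        rw [← hm]
        ring)
      (by
        rw [hdet, Ne, map_eq_zero]
        exact h0)
    rw [hdet, hw] at key
    refine key.trans (le_of_eq ?_)
    ring
  · obtain ⟨s₁, Ω, _, w, φ, c, hm, hw, hna, hb⟩ := hPln K v f n hf h5 hsq hnode hn hval I hI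
    have hdet : (Matrix.of fun (j q : QI i) => ∏ a : Fin i, mon (q a).1
        (uni c (fun l => φ (kum f (A j a) (B j a) l)))).det =
        φ (Matrix.of fun (j q : QI i) => ∏ a : Fin i, mon (q a).1
          (kum f (A j a) (B j a))).det := by
      rw [hUnt Ω c i (fun j a l => φ (kum f (A j a) (B j a) l))]
      exact det_emb φ i (fun j a => kum f (A j a) (B j a))
    have hlog : Real.log (v (discr f)) ≤ 0 := by
      apply Real.log_nonpos (apply_nonneg v.val _)
      have h1 : (1 : ℝ) ≤ (Ideal.absNorm v.maximalIdeal.asIdeal : ℝ) ^ n := by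
        apply one_le_pow₀
        have h3 : Ideal.absNorm v.maximalIdeal.asIdeal ≠ 0 := by
          intro h
          rw [h] at hval
          simp [hn.ne'] at hval
        exact_mod_cast Nat.one_le_iff_ne_zero.mpr h3
      have h2' : 0 ≤ v (discr f) := apply_nonneg v.val _
      exact (le_mul_of_one_le_right h2' h1).trans (le_of_eq hval)
    have h1 := (hDtb Ω w (QI i) (Matrix.of fun (j q : QI i) => ∏ a : Fin i, mon (q a).1
      (uni c (fun l => φ (kum f (A j a) (B j a) l))))
      (fun j => Real.exp (∑ a : Fin i, (2 * Lv v f (A j a) (U j a) M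
        - (1 / 2) * Real.log (v (discr f)))))
      (fun _ => 1) (fun j => (Real.exp_pos _).le) (fun _ => zero_le_one) (fun j q => by
        rw [Matrix.of_apply, mul_one, map_prod, Real.exp_sum]
        apply Finset.prod_le_prod
        · intro a _
          exact apply_nonneg w _
        · intro a _
          obtain ⟨hVG, hGen, hcl⟩ := hH j a a.2.le
          refine ((hb (m₀ * (2 ^ (a : ℕ) * k j)) (A j a) (B j a) (U j a) (W j a) M hVG hcl hGen 2
            (q a).1 (by norm_num) (q a).2).1).trans ?_
          apply Real.exp_le_exp.mpr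
          have hj : ((jj (q a).1 : ℝ)) ^ 2 ≤ 4 := by
            have h4 : ((jj (q a).1 : ℝ)) ≤ 2 := by exact_mod_cast jj_le (q a).2
            have h5' : (0 : ℝ) ≤ (jj (q a).1 : ℝ) := Nat.cast_nonneg _
            nlinarith
          push_cast
          have h6 : (-Real.log (v (discr f))) * ((jj (q a).1 : ℝ) ^ 2 / (4 * 2)) ≤
              (-Real.log (v (discr f))) * (1 / 2) := by
            apply mul_le_mul_of_nonneg_left _ (by linarith)
            linarith
          linarith)).2 hna
    rw [hdet, hw, Finset.prod_const_one, mul_one, ← Real.exp_sum] at h1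
    have hpos : 0 < v (Matrix.of fun (j q : QI i) => ∏ a : Fin i, mon (q a).1
        (kum f (A j a) (B j a))).det := v.val.pos h0
    rw [← Real.log_le_iff_le_exp hpos] at h1
    refine h1.trans (le_of_eq ?_)
    simp only [Finset.sum_sub_distrib, Finset.sum_const, Finset.card_univ, Fintype.card_fin,
      card_QI, nsmul_eq_mul]
    push_cast
    ring

end Pool.Agent.KDS.H26
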